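import Pool.Agent.Helper6.MONO.Stmts2
import Pool.Agent.Helper11.MONO.TGS

set_option autoImplicit false

namespace Pool.Agent.Helper6.MONO.S

theorem st_TGS : ST_TGS := by
  intro hTRS sa sb ck cd ce bt src t RI tr hchk hm s k hd he R z hs hk hhd hhe hz hrt htl
  obtain ⟨h1, h2⟩ := band_eq hchk
  exact hTRS t src bt tr _ sa sb rfl h2 s k hd he R z ⟨hz.a, hz.b, hz.be, hs, hk, hhd, hhe⟩
    (fun h => tgs_tail h1 h hk (hm h) htl) hz.yr hz.ad hz.bd hz.bed hrt

end Pool.Agent.Helper6.MONO.S
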